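import Mathlib
import Pool.Agent.Helper60.PVLink
import Pool.Agent.Helper60.Lower4
import Pool.Agent.Helper60.Kappa

set_option autoImplicit false

open MeasureTheory Filter Topology
open scoped Real ENNReal

namespace Pool.Agent.Results.MP_e4b1aa_an.WeakTypeComplex

/-- The truncated Hilbert transform: `(1 / π) * ∫ f(y) / (x - y) dy` over `|x - y| > ε`. -/
noncomputable def truncHilbert (f : ℝ → ℂ) (ε x : ℝ) : ℂ :=
  (π : ℂ)⁻¹ * ∫ y in {y : ℝ | ε < |x - y|}, f y / ((x - y : ℝ) : ℂ)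

/-- The principal value `Hf(x)` exists and equals `ℓ`. -/
def HilbertValue (f : ℝ → ℂ) (x : ℝ) (ℓ : ℂ) : Prop :=
  Tendsto (fun ε => truncHilbert f ε x) (𝓝[>] 0) (𝓝 ℓ)

/-- `C` is admissible in the weak type (1,1) inequality for the Hilbert transform on the
complex-valued integrable functions. -/
def WeakTypeConst (C : ℝ) : Prop :=
  0 ≤ C ∧ ∀ f : ℝ → ℂ, Integrable f → ∀ lam : ℝ, 0 < lam →
    ENNReal.ofReal lam * volume {x : ℝ | ∃ ℓ : ℂ, HilbertValue f x ℓ ∧ lam < ‖ℓ‖} ≤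
      ENNReal.ofReal C * ∫⁻ x, ‖f x‖ₑ

/-- The best constant for complex-valued functions is
`(1 + 3⁻² + 5⁻² + ...) / (1 - 3⁻² + 5⁻² - ...)`. -/
theorem result : IsLeast {C : ℝ | WeakTypeConst C}
    ((∑' n : ℕ, 1 / (2 * (n : ℝ) + 1) ^ 2) / (∑' n : ℕ, (-1) ^ n / (2 * (n : ℝ) + 1) ^ 2)) := by
  rw [← Helper60.one_div_kap]
  have hk := Helper60.kap_pos
  constructor
  · refine ⟨by positivity, fun f hf lam hlam => ?_⟩
    exact Helper60.weak_type_upper hf hlam
  · rintro C ⟨hC, h⟩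
    have h1 := Helper60.weak_type_lower hC (fun f hf _ lam hlam => h f hf lam hlam)
    rw [div_le_iff₀ hk]
    exact h1

end Pool.Agent.Results.MP_e4b1aa_an.WeakTypeComplex
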